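import Pool.Agent.Work.MP_42f001_co.Proof

set_option autoImplicit false

namespace Pool.Agent.Results.MP_42f001_co.PrimeBound

open Pool.Agent.Work.MP_42f001_co

/-- If the prime graphs of a hereditary class have functionality at most `k`, then all graphs of
the class have functionality at most `3k + 2`. -/
theorem result (X : ∀ n : ℕ, SimpleGraph (Fin n) → Prop) (hX : IsHereditary X) (k : ℕ)
    (hk : ∀ (n : ℕ) (G : SimpleGraph (Fin n)), X n G → IsPrimeGraph G → graphFun G ≤ k) :
    ∀ (n : ℕ) (G : SimpleGraph (Fin n)), X n G → graphFun G ≤ 3 * k + 2 :=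
  main X hX k hk

end Pool.Agent.Results.MP_42f001_co.PrimeBound
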